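import Pool.Agent.H37.PT2.Defs

set_option autoImplicit false

open Finset

namespace Pool.PT2

theorem LOW_avg_prod {α β : Type} [Fintype α] [Fintype β] (F : α → β → ℝ) :
    avg (fun p : α × β => F p.1 p.2) = avg (fun a => avg (F a)) := by
  unfold avg
  rw [Fintype.sum_prod_type, Fintype.card_prod]
  push_cast
  rw [← Finset.sum_div, div_div, mul_comm (Fintype.card β : ℝ)]

theorem LOW_avg_mono {α : Type} [Fintype α] (f g : α → ℝ) (h : ∀ a, f a ≤ g a) :
    avg f ≤ avg g := by
  unfold avg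
  exact div_le_div_of_nonneg_right (Finset.sum_le_sum fun a _ => h a) (Nat.cast_nonneg _)

theorem LOW_avg_sum {α β : Type} [Fintype α] [Fintype β] (f : β → α → ℝ) :
    avg (fun p => ∑ t, f t p) = ∑ t, avg (f t) := by
  unfold avg
  rw [Finset.sum_comm, ← Finset.sum_div]

theorem LOW_avg_mul {α : Type} [Fintype α] (f : α → ℝ) (c : ℝ) :
    avg (fun p => f p * c) = avg f * c := by
  unfold avg
  rw [← Finset.sum_mul]
  ring

theorem LOW_eval {m k : ℕ} (hk : 1 ≤ k) (b : Fin m) (f : Fin k → ℝ) :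
    avg (fun J : Fin m → Fin k => f (J b)) = (∑ j, f j) / k := by
  unfold avg
  have h1 : ∑ J : Fin m → Fin k, f (J b) =
      ∑ p : Fin k × ({j // j ≠ b} → Fin k), f p.1 :=
    Fintype.sum_equiv (Equiv.funSplitAt b (Fin k)) _ _ (fun J => rfl)
  have h2 : Fintype.card (Fin m → Fin k) = k * Fintype.card ({j // j ≠ b} → Fin k) := by
    rw [Fintype.card_congr (Equiv.funSplitAt b (Fin k)), Fintype.card_prod, Fintype.card_fin]
  have hk' : (k : ℝ) ≠ 0 := by
    have : (0 : ℝ) < k := by exact_mod_cast hk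
    exact this.ne'
  have h3 : (Fintype.card ({j // j ≠ b} → Fin k) : ℝ) ≠ 0 := by
    have : Nonempty (Fin k) := ⟨⟨0, hk⟩⟩
    have : 0 < Fintype.card ({j // j ≠ b} → Fin k) := Fintype.card_pos
    exact_mod_cast this.ne'
  rw [h1, h2, Fintype.sum_prod_type]
  simp only [Finset.sum_const, Finset.card_univ, nsmul_eq_mul]
  rw [← Finset.mul_sum]
  push_cast
  rw [mul_comm (k : ℝ), mul_div_mul_left _ _ h3]

theorem LOW_flip {m : ℕ} (a b : Fin m) :
    avg (fun ε : Fin m → Bool => sg (ε b) * sg (ε a)) = if a = b then 1 else 0 := by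
  unfold avg
  split_ifs with hab
  · subst hab
    have h : ∀ ε : Fin m → Bool, sg (ε a) * sg (ε a) = 1 := by
      intro ε
      unfold sg
      cases ε a <;> norm_num
    simp_rw [h]
    simp
  · have h : ∑ ε : Fin m → Bool, sg (ε b) * sg (ε a) =
        ∑ ε : Fin m → Bool, -(sg (ε b) * sg (ε a)) := by
      have hinv : Function.Involutive (fun ε : Fin m → Bool => Function.update ε a (!ε a)) := by
        intro ε
        funext j
        by_cases hj : j = a
        · subst hj
          simp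
        · simp [Function.update_of_ne hj]
      refine Fintype.sum_equiv hinv.toPerm _ _ ?_
      intro ε
      have hba : b ≠ a := fun h => hab h.symm
      simp only [Function.Involutive.coe_toPerm, Function.update_of_ne hba, Function.update_self]
      unfold sg
      cases ε a <;> cases ε b <;> simp
    rw [Finset.sum_neg_distrib] at h
    have h0 : ∑ ε : Fin m → Bool, sg (ε b) * sg (ε a) = 0 := by linarith
    rw [h0, zero_div]

theorem sLow (hn : SNrm) : SLow := by
  intro q hq m k hk P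
  obtain ⟨_, _, h3, _⟩ := hn q hq m k
  have hpt : ∀ p : (Fin m → Fin k) × (Fin m → Bool),
      ∑ b, ∑ a, sg (p.2 b) * sg (p.2 a) * P (b, p.1 b) (a, p.1 a) ≤
      Nq q (fun t => ∑ a, sg (p.2 a) * P t (a, p.1 a)) := by
    intro p
    refine le_trans ?_ (h3 _ p.1)
    refine Finset.sum_le_sum fun b _ => ?_
    have : ∑ a, sg (p.2 b) * sg (p.2 a) * P (b, p.1 b) (a, p.1 a) =
        sg (p.2 b) * ∑ a, sg (p.2 a) * P (b, p.1 b) (a, p.1 a) := by
      rw [Finset.mul_sum]
      exact Finset.sum_congr rfl fun a _ => by ring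
    rw [this]
    set z := ∑ a, sg (p.2 a) * P (b, p.1 b) (a, p.1 a)
    unfold sg
    cases p.2 b
    · simpa using neg_le_abs z
    · simpa using le_abs_self z
  refine le_trans (le_of_eq ?_) (LOW_avg_mono _ _ hpt)
  rw [LOW_avg_prod (fun (J : Fin m → Fin k) (ε : Fin m → Bool) =>
    ∑ b, ∑ a, sg (ε b) * sg (ε a) * P (b, J b) (a, J a))]
  have h4 : ∀ J : Fin m → Fin k, avg (fun ε : Fin m → Bool =>
      ∑ b, ∑ a, sg (ε b) * sg (ε a) * P (b, J b) (a, J a)) = ∑ b, P (b, J b) (b, J b) := by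
    intro J
    rw [LOW_avg_sum (fun (b : Fin m) (ε : Fin m → Bool) =>
      ∑ a, sg (ε b) * sg (ε a) * P (b, J b) (a, J a))]
    refine Finset.sum_congr rfl fun b _ => ?_
    rw [LOW_avg_sum (fun (a : Fin m) (ε : Fin m → Bool) =>
      sg (ε b) * sg (ε a) * P (b, J b) (a, J a))]
    have h5 : ∀ a, avg (fun ε : Fin m → Bool => sg (ε b) * sg (ε a) * P (b, J b) (a, J a)) =
        if a = b then P (b, J b) (a, J a) else 0 := by
      intro a
      rw [LOW_avg_mul (fun ε : Fin m → Bool => sg (ε b) * sg (ε a)), LOW_flip a b]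
      split_ifs <;> simp
    simp_rw [h5]
    simp
  simp_rw [h4]
  rw [LOW_avg_sum (fun (b : Fin m) (J : Fin m → Fin k) => P (b, J b) (b, J b))]
  have h6 : ∀ b, avg (fun J : Fin m → Fin k => P (b, J b) (b, J b)) =
      (∑ j, P (b, j) (b, j)) / k := fun b => LOW_eval hk b (fun j => P (b, j) (b, j))
  simp_rw [h6]
  rw [← Finset.sum_div, Fintype.sum_prod_type]

end Pool.PT2
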