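import Pool.Agent.H37.PT2.Defs

set_option autoImplicit false

open Finset

namespace Pool.PT2

theorem UPM_key (hn : SNrm) (q : ℝ) (hq : 2 ≤ q) (m k : ℕ) (x : Fin m × Fin k → ℝ) :
    Nq q x ^ 2 ≤ m * ∑ t, x t ^ 2 := by
  obtain ⟨_, _, _, h4⟩ := hn q hq m k
  unfold Nq
  calc (∑ a, lq q (fun j => x (a, j))) ^ 2
      ≤ ((Finset.univ : Finset (Fin m)).card : ℝ) * ∑ a, lq q (fun j => x (a, j)) ^ 2 :=
        sq_sum_le_card_mul_sum_sq
    _ = m * ∑ a, lq q (fun j => x (a, j)) ^ 2 := by simp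
    _ ≤ m * ∑ a, ∑ j, x (a, j) ^ 2 := by
        refine mul_le_mul_of_nonneg_left ?_ (Nat.cast_nonneg m)
        exact Finset.sum_le_sum fun a _ => (h4 _).2
    _ = m * ∑ t, x t ^ 2 := by rw [Fintype.sum_prod_type]

theorem UPM_avg_sum {α β : Type} [Fintype α] [Fintype β] (c : ℝ) (f : β → α → ℝ) :
    avg (fun p => c * ∑ t, f t p) = c * ∑ t, avg (f t) := by
  unfold avg
  rw [← Finset.mul_sum, Finset.sum_comm, ← Finset.sum_div]
  ring

theorem UPM_avg_mono {α : Type} [Fintype α] (f g : α → ℝ) (h : ∀ a, f a ≤ g a) :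
    avg f ≤ avg g := by
  unfold avg
  exact div_le_div_of_nonneg_right (Finset.sum_le_sum fun a _ => h a) (Nat.cast_nonneg _)

theorem sUpm (hn : SNrm) (h2 : SMm2) : SUpm := by
  intro q hq m k N hk hN Q i
  have hk' : (0 : ℝ) < k := by exact_mod_cast hk
  have hN' : (0 : ℝ) < N := by exact_mod_cast hN
  calc N * avg (fun p => Nq q (cs Q i p) ^ 2)
      ≤ N * avg (fun p => (m : ℝ) * ∑ t, cs Q i p t ^ 2) := by
        refine mul_le_mul_of_nonneg_left ?_ hN'.le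
        exact UPM_avg_mono _ _ fun p => UPM_key hn q hq m k _
    _ = N * (m * ∑ t, avg (fun p => cs Q i p t ^ 2)) := by
        rw [UPM_avg_sum (m : ℝ) (fun t p => cs Q i p t ^ 2)]
    _ = N * (m * ∑ t, (∑ s, Q t s ^ 2) / (N * k)) := by
        simp_rw [h2 m k N hk hN Q i]
    _ = m / k * ∑ t, ∑ s, Q t s ^ 2 := by
        rw [← Finset.sum_div]
        field_simp
    _ ≤ _ := le_rfl

end Pool.PT2
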